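import Pool.Agent.W477.GM.Stms

/-! # Project GM (helper477), task GM-ZFF (helper311) -/

set_option maxHeartbeats 1000000

namespace Pool.Agent.W477.GM.W311ZFF

open Pool.Agent.W477.GM

theorem zff_holds (h1 : P_ZF1) (h2 : P_ZFI) (h3 : P_ZF2) (h4 : P_ZF3) : P_ZFF := by
  intro P _ _ S hS hPow σ hσ v hv p
  cases hσ with
  | ext => exact (h1 P S hS v hv p).1
  | found => exact (h1 P S hS v hv p).2.1
  | pair => exact (h1 P S hS v hv p).2.2.1
  | union => exact (h1 P S hS v hv p).2.2.2
  | pow => exact (h3 P S hS).2 hPow v hv p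
  | inf => exact h2 P S hS v hv p
  | sep φ m hb hm => exact (h3 P S hS).1 φ m hb hm v hv p
  | rep φ m hb hm => exact h4 P S hS φ m hb hm v hv p

theorem upd {M : Type 1} {A : M → Prop} (v : ℕ → {x : M // A x}) (i : ℕ) (x : {x : M // A x}) :
    (fun j => (Function.update v i x j).1) = Function.update (fun j => (v j).1) i x.1 := by
  funext j
  by_cases h : j = i
  · subst h
    simp
  · simp [Function.update_of_ne h]

theorem rel_holds : P_REL := by
  intro M mem A φ
  induction φ with
  | eq i j =>
    intro v
    exact Subtype.ext_iff.symm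
  | mem i j =>
    intro v
    exact Iff.rfl
  | fls =>
    intro v
    exact Iff.rfl
  | imp a b iha ihb =>
    intro v
    constructor
    · intro h h'
      exact (ihb v).1 (h ((iha v).2 h'))
    · intro h h'
      exact (ihb v).2 (h ((iha v).1 h'))
  | all i a ih =>
    intro v
    constructor
    · intro h x _
      rw [← ih, upd]
      exact h x.1 x.2
    · intro h x hx
      have h1 := (ih (Function.update v i ⟨x, hx⟩)).2 (h ⟨x, hx⟩ trivial)
      rw [upd] at h1
      exact h1

end Pool.Agent.W477.GM.W311ZFF
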